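import Pool.Agent.J4H13.GS.Sm

/-!
# Project GS (helper38): (FU), almost all shifts
-/

set_option autoImplicit false

open MeasureTheory Set Filter Polynomial

namespace Pool.Agent.J4H13.GS

open Pool.Agent.J4H38.GS

noncomputable section

/-- the lower integral of a product of functions of one coordinate -/
lemma lint_prod (μ : Measure ℝ) [SigmaFinite μ] (f : ℝ → ENNReal) (hf : Measurable f) (k : ℕ) :
    ∫⁻ x : Fin k → ℝ, ∏ i, f (x i) ∂(Measure.pi (fun _ => μ)) = (∫⁻ a, f a ∂μ) ^ k := by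
  induction k with
  | zero =>
    rw [Measure.pi_of_empty]
    simp
  | succ k ih =>
    have hm : Measurable (fun p : ℝ × (Fin k → ℝ) => f p.1 * ∏ i, f (p.2 i)) := by
      refine (hf.comp measurable_fst).mul ?_
      exact Finset.measurable_prod _ (fun i _ => hf.comp ((measurable_pi_apply i).comp measurable_snd))
    have h := (measurePreserving_piFinSuccAbove (fun _ : Fin (k + 1) => μ) 0).lintegral_comp hm
    have e : ∀ x : Fin (k + 1) → ℝ, ∏ i, f (x i) =
        (fun p : ℝ × (Fin k → ℝ) => f p.1 * ∏ i, f (p.2 i))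
          (MeasurableEquiv.piFinSuccAbove (fun _ => ℝ) 0 x) := by
      intro x
      rw [Fin.prod_univ_succ]
      simp [MeasurableEquiv.piFinSuccAbove, Fin.insertNthEquiv, Fin.tail]
    simp only [e]
    rw [h]
    have h2 : Measurable (fun x : Fin k → ℝ => ∏ i, f (x i)) :=
      Finset.measurable_prod _ (fun i _ => hf.comp (measurable_pi_apply i))
    rw [lintegral_prod_mul hf.aemeasurable h2.aemeasurable, ih, pow_succ, mul_comm]

/-- joint measurability of `DD` -/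
lemma DD_meas2 (σ : ℝ) : Measurable (fun p : ℝ × ℝ => DD p.1 (σ + p.2 * Complex.I)) := by
  have h1 : Measurable (Function.uncurry (fun (p : ℝ × ℝ) (y : ℝ) => hh ((σ : ℂ) + p.2 * Complex.I) p.1 y)) := by
    unfold hh
    have ha : Measurable (fun q : (ℝ × ℝ) × ℝ => ((saw q.1.1 q.2 : ℝ) : ℂ)) :=
      Complex.measurable_ofReal.comp (saw_meas.comp ((measurable_fst.comp measurable_fst).prodMk measurable_snd))
    have hb : Measurable (fun q : (ℝ × ℝ) × ℝ => ((q.2 : ℝ) : ℂ) ^ (-((σ : ℂ) + q.1.2 * Complex.I) - 1)) := by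
      refine Measurable.pow (Complex.measurable_ofReal.comp measurable_snd) ?_
      fun_prop
    exact ha.mul hb
  have h2 := (h1.stronglyMeasurable.integral_prod_right (ν := volume.restrict (Ioi (1 : ℝ)))).measurable
  have h3 : Measurable (fun p : ℝ × ℝ => ((σ : ℂ) + p.2 * Complex.I)) := by fun_prop
  exact h3.mul h2

/-- joint measurability of `ZZ` -/
lemma ZZ_meas2 (k : ℕ) (σ : ℝ) :
    Measurable (fun p : (Fin k → ℝ) × ℝ => ZZ k p.1 (σ + p.2 * Complex.I)) := by
  unfold ZZ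
  have h3 : Measurable (fun p : (Fin k → ℝ) × ℝ => ((σ : ℂ) + p.2 * Complex.I)) := by fun_prop
  refine Measurable.div ?_ h3
  refine Finset.measurable_prod _ (fun i _ => ?_)
  refine Measurable.add ?_ ?_
  · have h4 : Measurable (fun p : (Fin k → ℝ) × ℝ => (p.1 i, p.2)) :=
      ((measurable_pi_apply i).comp measurable_fst).prodMk measurable_snd
    exact (DD_meas2 σ).comp h4
  · exact measurable_const.div (h3.sub measurable_const)

/-- one factor -/
lemma one_factor {σ C : ℝ} (hC : 0 ≤ C) (hσ2 : σ < 1 / 2) {t : ℝ} (ht : 1 ≤ |t|)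
    (h : ∫⁻ a in Ico (0 : ℝ) 1, ‖DD a (σ + t * Complex.I)‖ₑ ^ 2 ≤ ENNReal.ofReal (C * (1 + |t|) ^ (1 - 2 * σ))) :
    ∫⁻ a in Ico (0 : ℝ) 1, ‖DD a (σ + t * Complex.I) + 1 / (σ + t * Complex.I - 1)‖ₑ ^ 2 ≤
      ENNReal.ofReal ((2 * C + 2) * (1 + |t|) ^ (1 - 2 * σ)) := by
  have hs1 : ‖(1 : ℂ) / (σ + t * Complex.I - 1)‖ ≤ 1 := by
    rw [norm_div, norm_one]
    have h1 : |t| ≤ ‖((σ : ℂ) + t * Complex.I - 1)‖ := by
      have := Complex.abs_im_le_norm ((σ : ℂ) + t * Complex.I - 1)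
      simpa using this
    rw [div_le_one (by linarith)]
    linarith
  have hX : 1 ≤ (1 + |t|) ^ (1 - 2 * σ) :=
    Real.one_le_rpow (by linarith [abs_nonneg t]) (by linarith)
  have hp : ∀ a : ℝ, ‖DD a (σ + t * Complex.I) + 1 / (σ + t * Complex.I - 1)‖ₑ ^ 2 ≤
      2 * ‖DD a (σ + t * Complex.I)‖ₑ ^ 2 + 2 := by
    intro a
    have h1 : ‖DD a (σ + t * Complex.I) + 1 / (σ + t * Complex.I - 1)‖ ^ 2 ≤
        2 * ‖DD a (σ + t * Complex.I)‖ ^ 2 + 2 := by
      have h2 := norm_add_le (DD a (σ + t * Complex.I)) (1 / (σ + t * Complex.I - 1))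
      have h3 := norm_nonneg (DD a (σ + t * Complex.I))
      have h4 := norm_nonneg ((1 : ℂ) / (σ + t * Complex.I - 1))
      have h5 := norm_nonneg (DD a (σ + t * Complex.I) + 1 / (σ + t * Complex.I - 1))
      have h6 : ‖DD a (σ + t * Complex.I) + 1 / (σ + t * Complex.I - 1)‖ ≤
          ‖DD a (σ + t * Complex.I)‖ + 1 := by linarith
      nlinarith [sq_nonneg (‖DD a (σ + t * Complex.I)‖ - 1)]
    have h7 := ENNReal.ofReal_le_ofReal h1
    rw [ENNReal.ofReal_pow (norm_nonneg _), ofReal_norm, ENNReal.ofReal_add (by positivity) (by norm_num),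
      ENNReal.ofReal_mul (by norm_num), ENNReal.ofReal_pow (norm_nonneg _), ofReal_norm] at h7
    simpa using h7
  calc ∫⁻ a in Ico (0 : ℝ) 1, ‖DD a (σ + t * Complex.I) + 1 / (σ + t * Complex.I - 1)‖ₑ ^ 2
      ≤ ∫⁻ a in Ico (0 : ℝ) 1, (2 * ‖DD a (σ + t * Complex.I)‖ₑ ^ 2 + 2) := lintegral_mono hp
    _ = 2 * (∫⁻ a in Ico (0 : ℝ) 1, ‖DD a (σ + t * Complex.I)‖ₑ ^ 2) + 2 := by
        rw [lintegral_add_right _ measurable_const, lintegral_const_mul' _ _ (by norm_num)]
        simp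
    _ ≤ 2 * ENNReal.ofReal (C * (1 + |t|) ^ (1 - 2 * σ)) + 2 := by gcongr
    _ = ENNReal.ofReal (2 * (C * (1 + |t|) ^ (1 - 2 * σ)) + 2) := by
        rw [ENNReal.ofReal_add (by positivity) (by norm_num), ENNReal.ofReal_mul (p := 2) (by norm_num)]
        simp
    _ ≤ ENNReal.ofReal ((2 * C + 2) * (1 + |t|) ^ (1 - 2 * σ)) := by
        refine ENNReal.ofReal_le_ofReal ?_
        nlinarith

/-- **(FU)** -/
theorem t_FU (hSM : S_SM) : S_FU := by
  intro k σ hk hkσ hσ hσ2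
  obtain ⟨C, hC, hS⟩ := hSM σ hσ hσ2
  have hmeas : Measurable (Function.uncurry (fun (α : Fin k → ℝ) (t : ℝ) =>
      ‖ZZ k α (σ + t * Complex.I)‖ₑ ^ 2)) := ((ZZ_meas2 k σ).enorm).pow_const 2
  have hT : MeasurableSet {t : ℝ | 1 ≤ |t|} := measurableSet_le measurable_const (by fun_prop)
  refine ae_lt_top' ?_ ?_
  · exact (Measurable.lintegral_prod_right' (ν := volume.restrict {t : ℝ | 1 ≤ |t|}) hmeas).aemeasurable
  · rw [lintegral_lintegral_swap hmeas.aemeasurable]
    have hk0 : (0 : ℝ) < k := by exact_mod_cast hk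
    set r : ℝ := 2 - k * (1 - 2 * σ) with hr
    have hr1 : 1 < r := by
      have h1 : ((k : ℝ) - 1) < σ * (2 * k) := by
        rwa [div_lt_iff₀ (by positivity)] at hkσ
      rw [hr]; nlinarith
    have hint : Integrable (fun t : ℝ => (1 + ‖t‖) ^ (-r)) :=
      integrable_one_add_norm (by simpa using hr1)
    have hfin : ∫⁻ t : ℝ, ENNReal.ofReal (4 * (2 * C + 2) ^ k * (1 + ‖t‖) ^ (-r)) < ⊤ :=
      (hint.const_mul (4 * (2 * C + 2) ^ k)).lintegral_lt_top
    refine ne_top_of_le_ne_top hfin.ne ?_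
    refine le_trans ?_ (setLIntegral_le_lintegral {t : ℝ | 1 ≤ |t|} _)
    refine setLIntegral_mono' hT ?_
    intro t ht
    have ht1 : 1 ≤ |t| := ht
    have hres : (volume.restrict (cube k) : Measure (Fin k → ℝ)) =
        Measure.pi (fun _ => volume.restrict (Ico (0 : ℝ) 1)) := by
      unfold cube
      rw [volume_pi, Measure.restrict_pi_pi]
    have hfm : Measurable (fun a : ℝ => ‖DD a (σ + t * Complex.I) + 1 / (σ + t * Complex.I - 1)‖ₑ ^ 2) := by
      refine Measurable.pow_const ?_ 2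
      exact ((DD_meas (σ + t * Complex.I)).measurable.add_const _).enorm
    have he : ∀ α : Fin k → ℝ, ‖ZZ k α (σ + t * Complex.I)‖ₑ ^ 2 =
        (∏ i, ‖DD (α i) (σ + t * Complex.I) + 1 / (σ + t * Complex.I - 1)‖ₑ ^ 2) *
          ‖((σ : ℂ) + t * Complex.I)⁻¹‖ₑ ^ 2 := by
      intro α
      unfold ZZ
      rw [div_eq_mul_inv, enorm_mul, mul_pow]
      congr 1
      rw [Finset.prod_pow]
      congr 1
      rw [← ofReal_norm, norm_prod, ENNReal.ofReal_prod_of_nonneg (fun i _ => norm_nonneg _)]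
      simp only [ofReal_norm]
    simp only [he]
    have hpm : Measurable (fun x : Fin k → ℝ =>
        ∏ i, ‖DD (x i) (σ + t * Complex.I) + 1 / (σ + t * Complex.I - 1)‖ₑ ^ 2) :=
      Finset.measurable_prod _ (fun i _ => hfm.comp (measurable_pi_apply i))
    rw [lintegral_mul_const _ hpm, hres, lint_prod _ _ hfm]
    have h1 := one_factor hC hσ2 ht1 (hS t)
    have hinv : ‖((σ : ℂ) + t * Complex.I)⁻¹‖ₑ ^ 2 ≤ ENNReal.ofReal (4 * (1 + |t|) ^ (-2 : ℝ)) := by
      rw [← ofReal_norm, ← ENNReal.ofReal_pow (norm_nonneg _)]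
      refine ENNReal.ofReal_le_ofReal ?_
      rw [norm_inv]
      have h2 : |t| ≤ ‖((σ : ℂ) + t * Complex.I)‖ := by
        have := Complex.abs_im_le_norm ((σ : ℂ) + t * Complex.I)
        simpa using this
      have h3 : ‖((σ : ℂ) + t * Complex.I)‖⁻¹ ≤ 2 * (1 + |t|)⁻¹ := by
        rw [← div_eq_mul_inv, inv_le_comm₀ (by linarith) (by positivity), inv_div]
        linarith
      calc ‖((σ : ℂ) + t * Complex.I)‖⁻¹ ^ 2 ≤ (2 * (1 + |t|)⁻¹) ^ 2 :=
            pow_le_pow_left₀ (by positivity) h3 2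
        _ = 4 * (1 + |t|) ^ (-2 : ℝ) := by
            rw [Real.rpow_neg (by positivity), mul_pow, inv_pow]
            norm_num
    calc (∫⁻ a in Ico (0 : ℝ) 1, ‖DD a (σ + t * Complex.I) + 1 / (σ + t * Complex.I - 1)‖ₑ ^ 2) ^ k *
          ‖((σ : ℂ) + t * Complex.I)⁻¹‖ₑ ^ 2
        ≤ (ENNReal.ofReal ((2 * C + 2) * (1 + |t|) ^ (1 - 2 * σ))) ^ k *
          ENNReal.ofReal (4 * (1 + |t|) ^ (-2 : ℝ)) := by gcongr
      _ = ENNReal.ofReal (4 * (2 * C + 2) ^ k * (1 + ‖t‖) ^ (-r)) := by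
          rw [← ENNReal.ofReal_pow (by positivity), ← ENNReal.ofReal_mul (by positivity)]
          congr 1
          have hp : 0 < 1 + |t| := by positivity
          rw [mul_pow, ← Real.rpow_natCast ((1 + |t|) ^ (1 - 2 * σ)) k, ← Real.rpow_mul hp.le]
          have e : (1 + ‖t‖) ^ (-r) = (1 + |t|) ^ ((1 - 2 * σ) * k) * (1 + |t|) ^ (-2 : ℝ) := by
            rw [← Real.rpow_add hp, Real.norm_eq_abs]
            congr 1
            rw [hr]; ring
          rw [e]
          ring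

end

end Pool.Agent.J4H13.GS
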