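import Pool.Agent.J4H38.GS.Stm2
import Pool.Agent.J4H13.GS.Fu

/-!
# Project GS (helper38): (FU2), almost all shifts, up to two of them zero
-/

set_option autoImplicit false

open MeasureTheory Set Filter Polynomial

namespace Pool.Agent.J4H13.GS

open Pool.Agent.J4H38.GS

noncomputable section

lemma app_meas (J k : ℕ) : Measurable (fun α : Fin k → ℝ => app J k α) := by
  refine measurable_pi_lambda _ (fun i => ?_)
  refine Fin.addCases (fun j => ?_) (fun j => ?_) i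
  · have h : (fun α : Fin k → ℝ => app J k α (Fin.castAdd k j)) = fun _ => 0 := by
      funext α
      simp [app]
    rw [h]
    exact measurable_const
  · have h : (fun α : Fin k → ℝ => app J k α (Fin.natAdd J j)) = fun α => α j := by
      funext α
      simp [app]
    rw [h]
    exact measurable_pi_apply j

lemma ZZ_app (J k : ℕ) (α : Fin k → ℝ) (s : ℂ) (z : ℂ) (hz : DD 0 s + 1 / (s - 1) = z) :
    ZZ (J + k) (app J k α) s = (z ^ J * ∏ i, (DD (α i) s + 1 / (s - 1))) / s := by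
  unfold ZZ
  rw [Fin.prod_univ_add]
  simp only [app, Fin.append_left, Fin.append_right, Finset.prod_const, Finset.card_univ,
    Fintype.card_fin]
  rw [← hz]

/-- **(FU2)** -/
theorem t_FU2 (hSM : S_SM) (hZ1 : S_Z1) (hZ4 : S_Z4) : S_FU2 := by
  intro J k σ hJ hJk hkσ hσ hσ2
  obtain ⟨C, hC, hS⟩ := hSM σ hσ hσ2
  have hfin0 := hZ4 J k σ hJ hJk hkσ hσ hσ2
  have hap : Measurable (fun p : (Fin k → ℝ) × ℝ => (app J k p.1, p.2)) :=
    ((app_meas J k).comp measurable_fst).prodMk measurable_snd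
  have hmeas : Measurable (Function.uncurry (fun (α : Fin k → ℝ) (t : ℝ) =>
      ‖ZZ (J + k) (app J k α) (σ + t * Complex.I)‖ₑ ^ 2)) :=
    (((ZZ_meas2 (J + k) σ).comp hap).enorm).pow_const 2
  have hT : MeasurableSet {t : ℝ | 1 ≤ |t|} := measurableSet_le measurable_const (by fun_prop)
  refine ae_lt_top' ?_ ?_
  · exact (Measurable.lintegral_prod_right' (ν := volume.restrict {t : ℝ | 1 ≤ |t|}) hmeas).aemeasurable
  · rw [lintegral_lintegral_swap hmeas.aemeasurable]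
    set B : ℝ := 4 * (2 * C + 2) ^ k * 2 ^ ((k : ℝ) * (1 - 2 * σ)) with hB
    have hB0 : 0 ≤ B := by positivity
    have hfin : ∫⁻ t in {t : ℝ | 1 ≤ |t|}, ENNReal.ofReal B *
        (‖riemannZeta (σ + t * Complex.I)‖ₑ ^ (2 * J) *
          ENNReal.ofReal (|t| ^ ((k : ℝ) * (1 - 2 * σ) - 2))) < ⊤ := by
      rw [lintegral_const_mul' _ _ ENNReal.ofReal_ne_top]
      exact ENNReal.mul_lt_top ENNReal.ofReal_lt_top hfin0
    refine ne_top_of_le_ne_top hfin.ne ?_
    refine setLIntegral_mono' hT ?_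
    intro t ht
    have ht1 : 1 ≤ |t| := ht
    have ht0 : 0 < |t| := by linarith
    have hres : (volume.restrict (cube k) : Measure (Fin k → ℝ)) =
        Measure.pi (fun _ => volume.restrict (Ico (0 : ℝ) 1)) := by
      unfold cube
      rw [volume_pi, Measure.restrict_pi_pi]
    have hfm : Measurable (fun a : ℝ => ‖DD a (σ + t * Complex.I) + 1 / (σ + t * Complex.I - 1)‖ₑ ^ 2) := by
      refine Measurable.pow_const ?_ 2
      exact ((DD_meas (σ + t * Complex.I)).measurable.add_const _).enorm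
    have hs1 : ((σ : ℂ) + t * Complex.I) ≠ 1 := by
      intro h
      have h1 := congrArg Complex.im h
      simp at h1
      rw [h1, abs_zero] at ht1
      linarith
    have hz := hZ1 ((σ : ℂ) + t * Complex.I) (by simpa using hσ) hs1
    have he : ∀ α : Fin k → ℝ, ‖ZZ (J + k) (app J k α) (σ + t * Complex.I)‖ₑ ^ 2 =
        (∏ i, ‖DD (α i) (σ + t * Complex.I) + 1 / (σ + t * Complex.I - 1)‖ₑ ^ 2) *
          (‖riemannZeta (σ + t * Complex.I)‖ₑ ^ (2 * J) * ‖((σ : ℂ) + t * Complex.I)⁻¹‖ₑ ^ 2) := by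
      intro α
      rw [ZZ_app J k α _ _ hz, div_eq_mul_inv, enorm_mul, enorm_mul, mul_pow, mul_pow, enorm_pow]
      have h1 : ‖∏ i, (DD (α i) (σ + t * Complex.I) + 1 / (σ + t * Complex.I - 1))‖ₑ ^ 2 =
          ∏ i, ‖DD (α i) (σ + t * Complex.I) + 1 / (σ + t * Complex.I - 1)‖ₑ ^ 2 := by
        rw [Finset.prod_pow]
        congr 1
        rw [← ofReal_norm, norm_prod, ENNReal.ofReal_prod_of_nonneg (fun i _ => norm_nonneg _)]
        simp only [ofReal_norm]
      rw [h1, ← pow_mul, mul_comm J 2]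
      ring
    simp only [he]
    have hpm : Measurable (fun x : Fin k → ℝ =>
        ∏ i, ‖DD (x i) (σ + t * Complex.I) + 1 / (σ + t * Complex.I - 1)‖ₑ ^ 2) :=
      Finset.measurable_prod _ (fun i _ => hfm.comp (measurable_pi_apply i))
    rw [lintegral_mul_const _ hpm, hres, lint_prod _ _ hfm]
    have h1 := one_factor hC hσ2 ht1 (hS t)
    have hinv : ‖((σ : ℂ) + t * Complex.I)⁻¹‖ₑ ^ 2 ≤ ENNReal.ofReal (|t| ^ (-2 : ℝ)) := by
      rw [← ofReal_norm, ← ENNReal.ofReal_pow (norm_nonneg _)]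
      refine ENNReal.ofReal_le_ofReal ?_
      rw [norm_inv]
      have h2 : |t| ≤ ‖((σ : ℂ) + t * Complex.I)‖ := by
        have := Complex.abs_im_le_norm ((σ : ℂ) + t * Complex.I)
        simpa using this
      have h3 : ‖((σ : ℂ) + t * Complex.I)‖⁻¹ ≤ |t|⁻¹ := inv_anti₀ ht0 h2
      calc ‖((σ : ℂ) + t * Complex.I)‖⁻¹ ^ 2 ≤ (|t|⁻¹) ^ 2 :=
            pow_le_pow_left₀ (by positivity) h3 2
        _ = |t| ^ (-2 : ℝ) := by
            rw [Real.rpow_neg ht0.le, inv_pow]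
            norm_num
    have hpos : 0 ≤ (k : ℝ) * (1 - 2 * σ) := by
      have : 0 ≤ 1 - 2 * σ := by linarith
      positivity
    have hreal : ((2 * C + 2) * (1 + |t|) ^ (1 - 2 * σ)) ^ k ≤
        B * |t| ^ ((k : ℝ) * (1 - 2 * σ)) := by
      have h4 : ((1 + |t|) ^ (1 - 2 * σ)) ^ k = (1 + |t|) ^ ((k : ℝ) * (1 - 2 * σ)) := by
        rw [← Real.rpow_natCast ((1 + |t|) ^ (1 - 2 * σ)) k, ← Real.rpow_mul (by positivity), mul_comm]
      have h5 : (1 + |t|) ^ ((k : ℝ) * (1 - 2 * σ)) ≤ (2 * |t|) ^ ((k : ℝ) * (1 - 2 * σ)) :=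
        Real.rpow_le_rpow (by positivity) (by linarith) hpos
      rw [Real.mul_rpow (by norm_num) ht0.le] at h5
      rw [mul_pow, h4, hB]
      have h6 : 0 ≤ (2 * C + 2) ^ k := by positivity
      have h7 : 0 ≤ (2 : ℝ) ^ ((k : ℝ) * (1 - 2 * σ)) * |t| ^ ((k : ℝ) * (1 - 2 * σ)) := by positivity
      calc (2 * C + 2) ^ k * (1 + |t|) ^ ((k : ℝ) * (1 - 2 * σ))
          ≤ (2 * C + 2) ^ k * (2 ^ ((k : ℝ) * (1 - 2 * σ)) * |t| ^ ((k : ℝ) * (1 - 2 * σ))) :=
            mul_le_mul_of_nonneg_left h5 h6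
        _ ≤ 4 * ((2 * C + 2) ^ k * (2 ^ ((k : ℝ) * (1 - 2 * σ)) * |t| ^ ((k : ℝ) * (1 - 2 * σ)))) := by
            have := mul_nonneg h6 h7
            linarith
        _ = _ := by ring
    calc (∫⁻ a in Ico (0 : ℝ) 1, ‖DD a (σ + t * Complex.I) + 1 / (σ + t * Complex.I - 1)‖ₑ ^ 2) ^ k *
          (‖riemannZeta (σ + t * Complex.I)‖ₑ ^ (2 * J) * ‖((σ : ℂ) + t * Complex.I)⁻¹‖ₑ ^ 2)
        ≤ (ENNReal.ofReal ((2 * C + 2) * (1 + |t|) ^ (1 - 2 * σ))) ^ k *
          (‖riemannZeta (σ + t * Complex.I)‖ₑ ^ (2 * J) * ENNReal.ofReal (|t| ^ (-2 : ℝ))) := by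
          refine mul_le_mul' (pow_le_pow_left' h1 k) (mul_le_mul' le_rfl hinv)
      _ ≤ ENNReal.ofReal (B * |t| ^ ((k : ℝ) * (1 - 2 * σ))) *
          (‖riemannZeta (σ + t * Complex.I)‖ₑ ^ (2 * J) * ENNReal.ofReal (|t| ^ (-2 : ℝ))) := by
          refine mul_le_mul' ?_ le_rfl
          rw [← ENNReal.ofReal_pow (by positivity)]
          exact ENNReal.ofReal_le_ofReal hreal
      _ = ENNReal.ofReal B * (‖riemannZeta (σ + t * Complex.I)‖ₑ ^ (2 * J) *
          ENNReal.ofReal (|t| ^ ((k : ℝ) * (1 - 2 * σ) - 2))) := by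
          rw [ENNReal.ofReal_mul hB0]
          have e : |t| ^ ((k : ℝ) * (1 - 2 * σ) - 2) =
              |t| ^ ((k : ℝ) * (1 - 2 * σ)) * |t| ^ (-2 : ℝ) := by
            rw [← Real.rpow_add ht0]
            rfl
          rw [e, ENNReal.ofReal_mul (p := |t| ^ ((k : ℝ) * (1 - 2 * σ))) (by positivity)]
          generalize ENNReal.ofReal B = b1
          ring

end

end Pool.Agent.J4H13.GS
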