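import Pool.Agent.J4H30.GS.Stm2
import Pool.Agent.J4H13.GS.Fu2

/-!
# Project GS (helper38, helper30): (FM2), the first moment, almost all shifts, up to four of them zero
-/

set_option autoImplicit false

open MeasureTheory Set Filter Polynomial

namespace Pool.Agent.J4H13.GS

open Pool.Agent.J4H38.GS Pool.Agent.J4H30.GS

noncomputable section

/-- one factor, first moment -/
lemma one_factor1 {σ C : ℝ} (hC : 0 ≤ C) (hσ2 : σ < 1 / 2) {t : ℝ} (ht : 1 ≤ |t|)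
    (h : ∫⁻ a in Ico (0 : ℝ) 1, ‖DD a (σ + t * Complex.I)‖ₑ ^ 2 ≤ ENNReal.ofReal (C * (1 + |t|) ^ (1 - 2 * σ))) :
    ∫⁻ a in Ico (0 : ℝ) 1, ‖DD a (σ + t * Complex.I) + 1 / (σ + t * Complex.I - 1)‖ₑ ≤
      ENNReal.ofReal ((2 * C + 3) * (1 + |t|) ^ (1 / 2 - σ)) := by
  have h2 := one_factor hC hσ2 ht h
  obtain ⟨L, hL⟩ : ∃ L : ℝ, L = (1 + |t|) ^ (1 / 2 - σ) := ⟨_, rfl⟩
  have hp : 0 < 1 + |t| := by positivity
  have hL0 : 0 < L := by rw [hL]; positivity
  have hL2 : (1 + |t|) ^ (1 - 2 * σ) = L ^ 2 := by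
    rw [hL, ← Real.rpow_natCast ((1 + |t|) ^ (1 / 2 - σ)) 2, ← Real.rpow_mul hp.le]
    congr 1
    push_cast
    ring
  rw [hL2] at h2
  rw [← hL]
  have hp : ∀ a : ℝ, ‖DD a (σ + t * Complex.I) + 1 / (σ + t * Complex.I - 1)‖ₑ ≤
      ENNReal.ofReal L⁻¹ * ‖DD a (σ + t * Complex.I) + 1 / (σ + t * Complex.I - 1)‖ₑ ^ 2 +
        ENNReal.ofReal L := by
    intro a
    obtain ⟨x, hx⟩ : ∃ x : ℝ, x = ‖DD a (σ + t * Complex.I) + 1 / (σ + t * Complex.I - 1)‖ := ⟨_, rfl⟩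
    have hx0 : 0 ≤ x := by rw [hx]; positivity
    have h1 : x ≤ L⁻¹ * x ^ 2 + L := by
      rcases le_total x L with h3 | h3
      · have : 0 ≤ L⁻¹ * x ^ 2 := by positivity
        linarith
      · have h4 : x ≤ L⁻¹ * x ^ 2 := by
          rw [inv_mul_eq_div, le_div_iff₀ hL0]
          nlinarith
        linarith
    have h7 := ENNReal.ofReal_le_ofReal h1
    rw [ENNReal.ofReal_add (by positivity) hL0.le, ENNReal.ofReal_mul (by positivity),
      ENNReal.ofReal_pow hx0, hx, ofReal_norm] at h7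
    exact h7
  calc ∫⁻ a in Ico (0 : ℝ) 1, ‖DD a (σ + t * Complex.I) + 1 / (σ + t * Complex.I - 1)‖ₑ
      ≤ ∫⁻ a in Ico (0 : ℝ) 1, (ENNReal.ofReal L⁻¹ *
          ‖DD a (σ + t * Complex.I) + 1 / (σ + t * Complex.I - 1)‖ₑ ^ 2 + ENNReal.ofReal L) :=
        lintegral_mono hp
    _ = ENNReal.ofReal L⁻¹ * (∫⁻ a in Ico (0 : ℝ) 1,
          ‖DD a (σ + t * Complex.I) + 1 / (σ + t * Complex.I - 1)‖ₑ ^ 2) + ENNReal.ofReal L := by
        rw [lintegral_add_right _ measurable_const, lintegral_const_mul' _ _ ENNReal.ofReal_ne_top]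
        simp
    _ ≤ ENNReal.ofReal L⁻¹ * ENNReal.ofReal ((2 * C + 2) * L ^ 2) + ENNReal.ofReal L :=
        add_le_add (mul_le_mul' le_rfl h2) le_rfl
    _ = ENNReal.ofReal (L⁻¹ * ((2 * C + 2) * L ^ 2) + L) := by
        rw [ENNReal.ofReal_add (by positivity) hL0.le, ENNReal.ofReal_mul (p := L⁻¹) (by positivity)]
    _ = ENNReal.ofReal ((2 * C + 3) * L) := by
        congr 1
        field_simp
        ring

/-- **(FM2)** -/
theorem t_FM2 (hSM : S_SM) (hZ1 : S_Z1) (hZ4 : S_Z4P) : S_FM2 := by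
  intro J k σ κ hJ hσ hσ2 hκ
  obtain ⟨C, hC, hS⟩ := hSM σ hσ hσ2
  have hfin0 := hZ4 J k σ κ hJ hσ hσ2 hκ
  have hap : Measurable (fun p : (Fin k → ℝ) × ℝ => (app J k p.1, p.2)) :=
    ((app_meas J k).comp measurable_fst).prodMk measurable_snd
  have hkm : Measurable (fun p : (Fin k → ℝ) × ℝ => ENNReal.ofReal (|p.2| ^ (-κ))) := by
    have h1 : Measurable (fun t : ℝ => |t| ^ (-κ)) := by fun_prop
    exact (ENNReal.measurable_ofReal.comp h1).comp measurable_snd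
  have hmeas : Measurable (Function.uncurry (fun (α : Fin k → ℝ) (t : ℝ) =>
      ‖ZZ (J + k) (app J k α) (σ + t * Complex.I)‖ₑ * ENNReal.ofReal (|t| ^ (-κ)))) :=
    (((ZZ_meas2 (J + k) σ).comp hap).enorm).mul hkm
  have hT : MeasurableSet {t : ℝ | 1 ≤ |t|} := measurableSet_le measurable_const (by fun_prop)
  refine ae_lt_top' ?_ ?_
  · exact (Measurable.lintegral_prod_right' (ν := volume.restrict {t : ℝ | 1 ≤ |t|}) hmeas).aemeasurable
  · rw [lintegral_lintegral_swap hmeas.aemeasurable]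
    set B : ℝ := (2 * C + 3) ^ k * 2 ^ ((k : ℝ) * (1 / 2 - σ)) with hB
    have hB0 : 0 ≤ B := by positivity
    have hfin : ∫⁻ t in {t : ℝ | 1 ≤ |t|}, ENNReal.ofReal B *
        (‖riemannZeta (σ + t * Complex.I)‖ₑ ^ J *
          ENNReal.ofReal (|t| ^ ((k : ℝ) * (1 / 2 - σ) - 1 - κ))) < ⊤ := by
      rw [lintegral_const_mul' _ _ ENNReal.ofReal_ne_top]
      exact ENNReal.mul_lt_top ENNReal.ofReal_lt_top hfin0
    refine ne_top_of_le_ne_top hfin.ne ?_
    refine setLIntegral_mono' hT ?_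
    intro t ht
    have ht1 : 1 ≤ |t| := ht
    have ht0 : 0 < |t| := by linarith
    have hres : (volume.restrict (cube k) : Measure (Fin k → ℝ)) =
        Measure.pi (fun _ => volume.restrict (Ico (0 : ℝ) 1)) := by
      unfold cube
      rw [volume_pi, Measure.restrict_pi_pi]
    have hfm : Measurable (fun a : ℝ => ‖DD a (σ + t * Complex.I) + 1 / (σ + t * Complex.I - 1)‖ₑ) :=
      ((DD_meas (σ + t * Complex.I)).measurable.add_const _).enorm
    have hs1 : ((σ : ℂ) + t * Complex.I) ≠ 1 := by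
      intro h
      have h1 := congrArg Complex.im h
      simp at h1
      rw [h1, abs_zero] at ht1
      linarith
    have hz := hZ1 ((σ : ℂ) + t * Complex.I) (by simpa using hσ) hs1
    have he : ∀ α : Fin k → ℝ, ‖ZZ (J + k) (app J k α) (σ + t * Complex.I)‖ₑ *
        ENNReal.ofReal (|t| ^ (-κ)) =
        (∏ i, ‖DD (α i) (σ + t * Complex.I) + 1 / (σ + t * Complex.I - 1)‖ₑ) *
          (‖riemannZeta (σ + t * Complex.I)‖ₑ ^ J * ‖((σ : ℂ) + t * Complex.I)⁻¹‖ₑ *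
            ENNReal.ofReal (|t| ^ (-κ))) := by
      intro α
      rw [ZZ_app J k α _ _ hz, div_eq_mul_inv, enorm_mul, enorm_mul, enorm_pow]
      have h1 : ‖∏ i, (DD (α i) (σ + t * Complex.I) + 1 / (σ + t * Complex.I - 1))‖ₑ =
          ∏ i, ‖DD (α i) (σ + t * Complex.I) + 1 / (σ + t * Complex.I - 1)‖ₑ := by
        rw [← ofReal_norm, norm_prod, ENNReal.ofReal_prod_of_nonneg (fun i _ => norm_nonneg _)]
        simp only [ofReal_norm]
      rw [h1]
      ring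
    simp only [he]
    have hpm : Measurable (fun x : Fin k → ℝ =>
        ∏ i, ‖DD (x i) (σ + t * Complex.I) + 1 / (σ + t * Complex.I - 1)‖ₑ) :=
      Finset.measurable_prod _ (fun i _ => hfm.comp (measurable_pi_apply i))
    rw [lintegral_mul_const _ hpm, hres, lint_prod _ _ hfm]
    have h1 := one_factor1 hC hσ2 ht1 (hS t)
    have hinv : ‖((σ : ℂ) + t * Complex.I)⁻¹‖ₑ ≤ ENNReal.ofReal (|t| ^ (-1 : ℝ)) := by
      rw [← ofReal_norm]
      refine ENNReal.ofReal_le_ofReal ?_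
      rw [norm_inv, Real.rpow_neg_one]
      have h2 : |t| ≤ ‖((σ : ℂ) + t * Complex.I)‖ := by
        have := Complex.abs_im_le_norm ((σ : ℂ) + t * Complex.I)
        simpa using this
      exact inv_anti₀ ht0 h2
    have hpos : 0 ≤ (k : ℝ) * (1 / 2 - σ) := by
      have : 0 ≤ 1 / 2 - σ := by linarith
      positivity
    have hreal : ((2 * C + 3) * (1 + |t|) ^ (1 / 2 - σ)) ^ k ≤
        B * |t| ^ ((k : ℝ) * (1 / 2 - σ)) := by
      have h4 : ((1 + |t|) ^ (1 / 2 - σ)) ^ k = (1 + |t|) ^ ((k : ℝ) * (1 / 2 - σ)) := by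
        rw [← Real.rpow_natCast ((1 + |t|) ^ (1 / 2 - σ)) k, ← Real.rpow_mul (by positivity), mul_comm]
      have h5 : (1 + |t|) ^ ((k : ℝ) * (1 / 2 - σ)) ≤ (2 * |t|) ^ ((k : ℝ) * (1 / 2 - σ)) :=
        Real.rpow_le_rpow (by positivity) (by linarith) hpos
      rw [Real.mul_rpow (by norm_num) ht0.le] at h5
      rw [mul_pow, h4, hB, mul_assoc]
      exact mul_le_mul_of_nonneg_left h5 (by positivity)
    calc (∫⁻ a in Ico (0 : ℝ) 1, ‖DD a (σ + t * Complex.I) + 1 / (σ + t * Complex.I - 1)‖ₑ) ^ k *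
          (‖riemannZeta (σ + t * Complex.I)‖ₑ ^ J * ‖((σ : ℂ) + t * Complex.I)⁻¹‖ₑ *
            ENNReal.ofReal (|t| ^ (-κ)))
        ≤ (ENNReal.ofReal ((2 * C + 3) * (1 + |t|) ^ (1 / 2 - σ))) ^ k *
          (‖riemannZeta (σ + t * Complex.I)‖ₑ ^ J * ENNReal.ofReal (|t| ^ (-1 : ℝ)) *
            ENNReal.ofReal (|t| ^ (-κ))) := by
          refine mul_le_mul' (pow_le_pow_left' h1 k) (mul_le_mul' (mul_le_mul' le_rfl hinv) le_rfl)
      _ ≤ ENNReal.ofReal (B * |t| ^ ((k : ℝ) * (1 / 2 - σ))) *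
          (‖riemannZeta (σ + t * Complex.I)‖ₑ ^ J * ENNReal.ofReal (|t| ^ (-1 : ℝ)) *
            ENNReal.ofReal (|t| ^ (-κ))) := by
          refine mul_le_mul' ?_ le_rfl
          rw [← ENNReal.ofReal_pow (by positivity)]
          exact ENNReal.ofReal_le_ofReal hreal
      _ = ENNReal.ofReal B * (‖riemannZeta (σ + t * Complex.I)‖ₑ ^ J *
          ENNReal.ofReal (|t| ^ ((k : ℝ) * (1 / 2 - σ) - 1 - κ))) := by
          rw [ENNReal.ofReal_mul hB0]
          have e : |t| ^ ((k : ℝ) * (1 / 2 - σ) - 1 - κ) =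
              |t| ^ ((k : ℝ) * (1 / 2 - σ)) * |t| ^ (-1 : ℝ) * |t| ^ (-κ) := by
            rw [← Real.rpow_add ht0, ← Real.rpow_add ht0]
            congr 1
          rw [e, ENNReal.ofReal_mul (p := |t| ^ ((k : ℝ) * (1 / 2 - σ)) * |t| ^ (-1 : ℝ)) (by positivity),
            ENNReal.ofReal_mul (p := |t| ^ ((k : ℝ) * (1 / 2 - σ))) (by positivity)]
          generalize ENNReal.ofReal B = b1
          ring

end

end Pool.Agent.J4H13.GS
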