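import Pool.Agent.J4H38.GS.Stm

/-!
# Project GS (helper38): (SM), the second moment over the shift
-/

set_option autoImplicit false

open MeasureTheory Set Filter Polynomial

namespace Pool.Agent.J4H13.GS

open Pool.Agent.J4H38.GS

noncomputable section

lemma saw_low {a y : ℝ} (h0 : 0 ≤ a) (h1 : a ≤ Int.fract y) : saw a y = 1 - Int.fract y := by
  have hf : ⌊y - a⌋ = ⌊y⌋ := by
    rw [Int.floor_eq_iff]
    have h2 := Int.floor_add_fract y
    have h3 := Int.fract_lt_one y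
    constructor
    · linarith
    · linarith
  rw [saw, hf]
  have h2 := Int.floor_add_fract y
  linarith

lemma saw_high {a y : ℝ} (h0 : Int.fract y < a) (h1 : a ≤ 1) : saw a y = - Int.fract y := by
  have hf : ⌊y - a⌋ = ⌊y⌋ - 1 := by
    rw [Int.floor_eq_iff]
    have h2 := Int.floor_add_fract y
    have h3 := Int.fract_nonneg y
    push_cast
    constructor
    · linarith
    · linarith
  rw [saw, hf]
  have h2 := Int.floor_add_fract y
  push_cast
  linarith

lemma saw_le {a y : ℝ} (h0 : 0 ≤ a) (h1 : a ≤ 1) : |saw a y| ≤ 1 := by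
  have h2 := Int.fract_nonneg y
  have h3 := Int.fract_lt_one y
  rcases le_or_gt a (Int.fract y) with h | h
  · rw [saw_low h0 h, abs_le]; constructor <;> linarith
  · rw [saw_high h h1, abs_le]; constructor <;> linarith

lemma saw_meas : Measurable (fun p : ℝ × ℝ => saw p.1 p.2) := by
  unfold saw
  have h1 : Measurable (fun p : ℝ × ℝ => ⌊p.2 - p.1⌋) :=
    Int.measurable_floor.comp (measurable_snd.sub measurable_fst)
  have h2 : Measurable (fun p : ℝ × ℝ => ((⌊p.2 - p.1⌋ : ℤ) : ℝ)) := measurable_from_top.comp h1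
  exact (h2.sub measurable_snd).add_const 1

/-- integrals against the sawtooth -/
lemma saw_int (y : ℝ) (w : ℝ → ℂ) (hw : Continuous w) :
    ∫ a in (0 : ℝ)..1, w a * (saw a y : ℂ) =
      (1 - Int.fract y : ℝ) * (∫ a in (0 : ℝ)..(Int.fract y), w a) -
        (Int.fract y : ℝ) * ∫ a in (Int.fract y)..1, w a := by
  have h2 := Int.fract_nonneg y
  have h3 := Int.fract_lt_one y
  have e1 : ∀ a ∈ uIoc (0 : ℝ) (Int.fract y), w a * (saw a y : ℂ) = w a * ((1 - Int.fract y : ℝ) : ℂ) := by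
    intro a ha
    rw [uIoc_of_le h2] at ha
    rw [saw_low ha.1.le ha.2]
  have e2 : ∀ a ∈ uIoc (Int.fract y) (1 : ℝ), w a * (saw a y : ℂ) = w a * ((- Int.fract y : ℝ) : ℂ) := by
    intro a ha
    rw [uIoc_of_le h3.le] at ha
    rw [saw_high ha.1 ha.2]
  have i1 : IntervalIntegrable (fun a => w a * (saw a y : ℂ)) volume 0 (Int.fract y) := by
    refine IntervalIntegrable.congr (f := fun a => w a * ((1 - Int.fract y : ℝ) : ℂ)) ?_ ?_
    · intro a ha
      exact (e1 a ha).symm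
    · exact (hw.mul continuous_const).intervalIntegrable _ _
  have i2 : IntervalIntegrable (fun a => w a * (saw a y : ℂ)) volume (Int.fract y) 1 := by
    refine IntervalIntegrable.congr (f := fun a => w a * ((- Int.fract y : ℝ) : ℂ)) ?_ ?_
    · intro a ha
      exact (e2 a ha).symm
    · exact (hw.mul continuous_const).intervalIntegrable _ _
  rw [← intervalIntegral.integral_add_adjacent_intervals i1 i2,
    intervalIntegral.integral_congr_ae (Filter.Eventually.of_forall e1),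
    intervalIntegral.integral_congr_ae (Filter.Eventually.of_forall e2),
    intervalIntegral.integral_mul_const, intervalIntegral.integral_mul_const]
  push_cast
  ring

lemma saw_mean (y : ℝ) : ∫ a in (0 : ℝ)..1, (saw a y : ℂ) = 0 := by
  have h := saw_int y (fun _ => 1) continuous_const
  simp only [one_mul] at h
  rw [h]
  simp only [intervalIntegral.integral_const, Complex.real_smul]
  push_cast
  ring

lemma exp_int (m : ℤ) (hm : m ≠ 0) (u v : ℝ) :
    ∫ a in u..v, Complex.exp (-((2 * Real.pi * m * a : ℝ) : ℂ) * Complex.I) =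
      (Complex.exp (-((2 * Real.pi * m * u : ℝ) : ℂ) * Complex.I) -
        Complex.exp (-((2 * Real.pi * m * v : ℝ) : ℂ) * Complex.I)) / (2 * Real.pi * m * Complex.I) := by
  have hc : (-(2 * Real.pi * m * Complex.I) : ℂ) ≠ 0 := by
    simp [hm, Real.pi_ne_zero, Complex.I_ne_zero]
  have h := integral_exp_mul_complex (a := u) (b := v) hc
  have e : ∀ a : ℝ, Complex.exp (-((2 * Real.pi * m * a : ℝ) : ℂ) * Complex.I) =
      Complex.exp (-(2 * Real.pi * m * Complex.I) * a) := by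
    intro a; congr 1; push_cast; ring
  simp only [e]
  rw [h]
  rw [div_neg, ← neg_div, neg_sub]

lemma exp_fract (m : ℤ) (y : ℝ) :
    Complex.exp (-((2 * Real.pi * m * Int.fract y : ℝ) : ℂ) * Complex.I) =
      Complex.exp (-((2 * Real.pi * m * y : ℝ) : ℂ) * Complex.I) := by
  rw [Complex.exp_eq_exp_iff_exists_int]
  refine ⟨m * ⌊y⌋, ?_⟩
  have h2 : (Int.fract y : ℝ) = y - ⌊y⌋ := rfl
  rw [h2]
  push_cast
  ring

lemma saw_coef (m : ℤ) (hm : m ≠ 0) (y : ℝ) :
    ∫ a in (0 : ℝ)..1, Complex.exp (-((2 * Real.pi * m * a : ℝ) : ℂ) * Complex.I) * (saw a y : ℂ) =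
      (1 - Complex.exp (-((2 * Real.pi * m * y : ℝ) : ℂ) * Complex.I)) / (2 * Real.pi * m * Complex.I) := by
  rw [saw_int y _ (by fun_prop), exp_int m hm, exp_int m hm, exp_fract]
  have e0 : Complex.exp (-((2 * Real.pi * m * (0 : ℝ) : ℝ) : ℂ) * Complex.I) = 1 := by simp
  have e1 : Complex.exp (-((2 * Real.pi * m * (1 : ℝ) : ℝ) : ℂ) * Complex.I) = 1 := by
    rw [Complex.exp_eq_one_iff]
    refine ⟨-m, ?_⟩
    push_cast
    ring
  rw [e0, e1]
  push_cast
  ring

/-- the integrand -/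
def hh (s : ℂ) (a y : ℝ) : ℂ := (saw a y : ℂ) * (y : ℂ) ^ (-s - 1)

lemma hh_meas (s : ℂ) : Measurable (fun p : ℝ × ℝ => hh s p.1 p.2) := by
  unfold hh
  exact (Complex.measurable_ofReal.comp saw_meas).mul
    ((Complex.measurable_ofReal.comp measurable_snd).pow_const _)

lemma hh_le (s : ℂ) {a y : ℝ} (h0 : 0 ≤ a) (h1 : a ≤ 1) (hy : 1 < y) :
    ‖hh s a y‖ ≤ y ^ (-s.re - 1) := by
  unfold hh
  rw [norm_mul, Complex.norm_cpow_eq_rpow_re_of_pos (by linarith), Complex.norm_real, Real.norm_eq_abs]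
  have h2 := saw_le (y := y) h0 h1
  have h3 : 0 ≤ y ^ (-s.re - 1) := Real.rpow_nonneg (by linarith) _
  have h4 : (-s - 1).re = -s.re - 1 := by simp
  rw [h4]
  nlinarith

lemma rp_int {σ : ℝ} (hσ : 0 < σ) : IntegrableOn (fun y : ℝ => y ^ (-σ - 1)) (Ioi 1) :=
  integrableOn_Ioi_rpow_of_lt (by linarith) one_pos

lemma rp_val {σ : ℝ} (hσ : 0 < σ) : ∫ y in Ioi (1 : ℝ), y ^ (-σ - 1) = 1 / σ := by
  rw [integral_Ioi_rpow_of_lt (by linarith) one_pos]
  rw [Real.one_rpow]
  have : -σ - 1 + 1 = -σ := by ring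
  rw [this, neg_div_neg_eq]

lemma DD_le {a : ℝ} {s : ℂ} (h0 : 0 ≤ a) (h1 : a ≤ 1) (hs : 0 < s.re) : ‖DD a s‖ ≤ ‖s‖ / s.re := by
  unfold DD
  rw [norm_mul, div_eq_mul_one_div]
  refine mul_le_mul_of_nonneg_left ?_ (norm_nonneg _)
  rw [← rp_val hs]
  refine norm_integral_le_of_norm_le (rp_int hs) ?_
  refine (ae_restrict_iff' measurableSet_Ioi).2 (Filter.Eventually.of_forall ?_)
  intro y hy
  exact hh_le s h0 h1 hy

lemma DD_meas (s : ℂ) : StronglyMeasurable (fun a => DD a s) := by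
  have h1 : StronglyMeasurable (Function.uncurry (hh s)) := (hh_meas s).stronglyMeasurable
  have h2 := h1.integral_prod_right (ν := volume.restrict (Ioi (1 : ℝ)))
  exact h2.const_mul s

/-- Fubini -/
lemma coef_fub (s : ℂ) (hs : 0 < s.re) (w : ℝ → ℂ) (hw : Continuous w) (hw1 : ∀ a, ‖w a‖ ≤ 1) :
    ∫ a in (0 : ℝ)..1, w a * DD a s =
      s * ∫ y in Ioi (1 : ℝ), (∫ a in (0 : ℝ)..1, w a * (saw a y : ℂ)) * (y : ℂ) ^ (-s - 1) := by
  have e1 : ∀ a, w a * DD a s = s * ∫ y in Ioi (1 : ℝ), w a * hh s a y := by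
    intro a
    rw [integral_const_mul]
    unfold DD hh
    ring
  simp only [e1]
  rw [intervalIntegral.integral_const_mul, intervalIntegral.integral_of_le zero_le_one]
  congr 1
  rw [integral_integral_swap]
  · refine integral_congr_ae (Filter.Eventually.of_forall ?_)
    intro y
    simp only
    rw [intervalIntegral.integral_of_le zero_le_one, ← integral_mul_const]
    refine integral_congr_ae (Filter.Eventually.of_forall ?_)
    intro a
    simp only [hh]
    ring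
  · have hI : Integrable (fun p : ℝ × ℝ => (1 : ℝ) * p.2 ^ (-s.re - 1))
        ((volume.restrict (Ioc (0 : ℝ) 1)).prod (volume.restrict (Ioi (1 : ℝ)))) :=
      (integrable_const (1 : ℝ)).mul_prod (rp_int hs)
    refine hI.mono' ?_ ?_
    · exact (((hw.measurable.comp measurable_fst).mul (hh_meas s))).aestronglyMeasurable
    · rw [Measure.prod_restrict]
      refine (ae_restrict_iff' (measurableSet_Ioc.prod measurableSet_Ioi)).2
        (Filter.Eventually.of_forall ?_)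
      intro p hp
      rcases p with ⟨a, y⟩
      simp only [Function.uncurry, one_mul]
      rw [norm_mul]
      have h1 := hh_le s (a := a) (y := y) hp.1.1.le hp.1.2 hp.2
      have h2 := hw1 a
      have h3 := norm_nonneg (hh s a y)
      nlinarith

lemma coef_zero (s : ℂ) (hs : 0 < s.re) : ∫ a in (0 : ℝ)..1, DD a s = 0 := by
  have h := coef_fub s hs (fun _ => 1) continuous_const (by simp)
  simp only [one_mul] at h
  rw [h]
  simp [saw_mean]

lemma coef_ne (s : ℂ) (hs : 0 < s.re) (m : ℤ) (hm : m ≠ 0) :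
    ∫ a in (0 : ℝ)..1, Complex.exp (-((2 * Real.pi * m * a : ℝ) : ℂ) * Complex.I) * DD a s =
      (1 - s * KK m s) / (2 * Real.pi * m * Complex.I) := by
  rw [coef_fub s hs _ (by fun_prop) ?_]
  · simp only [saw_coef m hm]
    have hs0 : s ≠ 0 := by
      intro h; rw [h] at hs; simp at hs
    have i1 : IntegrableOn (fun y : ℝ => (y : ℂ) ^ (-s - 1)) (Ioi 1) :=
      integrableOn_Ioi_cpow_of_lt (by simp; linarith) one_pos
    have i2 : IntegrableOn (fun y : ℝ => Complex.exp (-(2 * Real.pi * m * y : ℝ) * Complex.I) *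
        (y : ℂ) ^ (-s - 1)) (Ioi 1) := by
      refine (rp_int hs).mono' ?_ ?_
      · refine Measurable.aestronglyMeasurable ?_
        exact (by fun_prop : Measurable (fun y : ℝ =>
          Complex.exp (-(2 * Real.pi * m * y : ℝ) * Complex.I))).mul
          (Complex.measurable_ofReal.pow_const _)
      · refine (ae_restrict_iff' measurableSet_Ioi).2 (Filter.Eventually.of_forall ?_)
        intro y hy
        have hy0 : (0 : ℝ) < y := lt_trans one_pos hy
        have e : (-(2 * Real.pi * m * y : ℝ) * Complex.I : ℂ) = ((-(2 * Real.pi * m * y) : ℝ) : ℂ) * Complex.I := by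
          push_cast; ring
        rw [norm_mul, e, Complex.norm_exp_ofReal_mul_I, one_mul,
          Complex.norm_cpow_eq_rpow_re_of_pos hy0]
        simp
    have e1 : ∀ y : ℝ, (1 - Complex.exp (-((2 * Real.pi * m * y : ℝ) : ℂ) * Complex.I)) /
        (2 * Real.pi * m * Complex.I) * (y : ℂ) ^ (-s - 1) =
        (2 * Real.pi * m * Complex.I)⁻¹ * ((y : ℂ) ^ (-s - 1) -
          Complex.exp (-(2 * Real.pi * m * y : ℝ) * Complex.I) * (y : ℂ) ^ (-s - 1)) := by
      intro y; ring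
    simp only [e1]
    rw [integral_const_mul, integral_sub i1 i2, integral_Ioi_cpow_of_lt (by simp; linarith) one_pos]
    unfold KK
    have : (-s - 1 + 1 : ℂ) = -s := by ring
    rw [this]
    simp only [Complex.ofReal_one, Complex.one_cpow, neg_div_neg_eq]
    field_simp
  · intro a
    have e : (-((2 * Real.pi * m * a : ℝ) : ℂ) * Complex.I : ℂ) = ((-(2 * Real.pi * m * a) : ℝ) : ℂ) * Complex.I := by
      push_cast; ring
    rw [e, Complex.norm_exp_ofReal_mul_I]

lemma coefOn_eq (s : ℂ) (m : ℤ) :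
    fourierCoeffOn (zero_lt_one' ℝ) (fun a => DD a s) m =
      ∫ a in (0 : ℝ)..1, Complex.exp (-((2 * Real.pi * m * a : ℝ) : ℂ) * Complex.I) * DD a s := by
  rw [fourierCoeffOn_eq_integral]
  rw [sub_zero, div_one, one_smul]
  refine intervalIntegral.integral_congr ?_
  intro a _
  simp only [smul_eq_mul]
  congr 1
  rw [fourier_coe_apply]
  congr 1
  push_cast
  simp
  ring

lemma memLp_DD (s : ℂ) (hs : 0 < s.re) : MemLp (fun a => DD a s) 2 (volume.restrict (Ioc (0 : ℝ) 1)) := by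
  refine MemLp.of_bound (DD_meas s).aestronglyMeasurable (‖s‖ / s.re) ?_
  refine (ae_restrict_iff' measurableSet_Ioc).2 (Filter.Eventually.of_forall ?_)
  intro a ha
  exact DD_le ha.1.le ha.2 hs

lemma parseval (s : ℂ) (hs : 0 < s.re) :
    HasSum (fun m : ℤ => ‖∫ a in (0 : ℝ)..1,
      Complex.exp (-((2 * Real.pi * m * a : ℝ) : ℂ) * Complex.I) * DD a s‖ ^ 2)
      (∫ a in (0 : ℝ)..1, ‖DD a s‖ ^ 2) := by
  have h := hasSum_sq_fourierCoeffOn (zero_lt_one' ℝ) (memLp_DD s hs)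
  simp only [coefOn_eq] at h
  rwa [sub_zero, inv_one, one_smul] at h

lemma lint_eq (s : ℂ) (hs : 0 < s.re) :
    ∫⁻ a in Ico (0 : ℝ) 1, ‖DD a s‖ₑ ^ 2 = ENNReal.ofReal (∫ a in (0 : ℝ)..1, ‖DD a s‖ ^ 2) := by
  rw [Measure.restrict_congr_set Ico_ae_eq_Ioc, intervalIntegral.integral_of_le zero_le_one,
    ofReal_integral_eq_lintegral_ofReal]
  · refine lintegral_congr ?_
    intro a
    rw [← ofReal_norm, ENNReal.ofReal_pow (norm_nonneg _)]
  · exact (memLp_DD s hs).integrable_norm_pow (by norm_num)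
  · exact Filter.Eventually.of_forall (fun a => by positivity)

/-- the bound of the coefficients -/
lemma coef_bd {σ C t : ℝ} (hσ : 0 < σ) (hσ2 : σ < 1 / 2) (hC : 0 ≤ C) (ht : 1 ≤ |t|) (m : ℤ) (hm : m ≠ 0)
    (h1 : |(m : ℝ)| ≤ |t| → ‖KK m (σ + t * Complex.I)‖ ≤ C * (|(m : ℝ)| / |t|) ^ σ * |t| ^ (-(1 / 2) : ℝ))
    (h2 : |t| ≤ |(m : ℝ)| → ‖KK m (σ + t * Complex.I)‖ ≤ C / |(m : ℝ)|) :
    ‖(1 - (σ + t * Complex.I) * KK m (σ + t * Complex.I)) / (2 * Real.pi * m * Complex.I)‖ ≤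
      (1 + 2 * C) * (|t| ^ (1 / 2 - σ) * |(m : ℝ)| ^ (σ - 1)) := by
  have hm1 : (1 : ℝ) ≤ |(m : ℝ)| := by
    have : (1 : ℤ) ≤ |m| := Int.one_le_abs hm
    exact_mod_cast this
  have hm0 : 0 < |(m : ℝ)| := by linarith
  have ht0 : 0 < |t| := by linarith
  have hs : ‖((σ : ℂ) + t * Complex.I)‖ ≤ 2 * |t| := by
    refine (norm_add_le _ _).trans ?_
    rw [norm_mul, Complex.norm_real, Complex.norm_real, Complex.norm_I, mul_one, Real.norm_eq_abs,
      Real.norm_eq_abs, abs_of_pos hσ]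
    linarith
  have hd : ‖(2 * Real.pi * m * Complex.I : ℂ)‖ = 2 * Real.pi * |(m : ℝ)| := by
    rw [norm_mul, norm_mul, norm_mul, Complex.norm_I, Complex.norm_real, Complex.norm_intCast,
      Real.norm_eq_abs, abs_of_pos Real.pi_pos]
    simp
  have hA : 1 ≤ |t| ^ (1 / 2 - σ) := Real.one_le_rpow ht (by linarith)
  have hB : 1 ≤ |(m : ℝ)| ^ σ := Real.one_le_rpow hm1 hσ.le
  have hAB : 1 ≤ |t| ^ (1 / 2 - σ) * |(m : ℝ)| ^ σ := one_le_mul_of_one_le_of_one_le hA hB
  have key : ‖1 - ((σ : ℂ) + t * Complex.I) * KK m (σ + t * Complex.I)‖ ≤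
      (1 + 2 * C) * (|t| ^ (1 / 2 - σ) * |(m : ℝ)| ^ σ) := by
    have hk : ‖((σ : ℂ) + t * Complex.I)‖ * ‖KK m (σ + t * Complex.I)‖ ≤
        2 * C * (|t| ^ (1 / 2 - σ) * |(m : ℝ)| ^ σ) := by
      rcases le_total |(m : ℝ)| |t| with h | h
      · have h3 := h1 h
        calc ‖((σ : ℂ) + t * Complex.I)‖ * ‖KK m (σ + t * Complex.I)‖
            ≤ 2 * |t| * (C * (|(m : ℝ)| / |t|) ^ σ * |t| ^ (-(1 / 2) : ℝ)) :=
              mul_le_mul hs h3 (norm_nonneg _) (by linarith)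
          _ = 2 * C * (|t| ^ (1 / 2 - σ) * |(m : ℝ)| ^ σ) := by
              rw [Real.div_rpow hm0.le ht0.le]
              have e : |t| ^ (1 / 2 - σ) = |t| ^ (1 : ℝ) * |t| ^ (-(1 / 2) : ℝ) * (|t| ^ σ)⁻¹ := by
                rw [← Real.rpow_neg ht0.le, ← Real.rpow_add ht0, ← Real.rpow_add ht0]
                congr 1; ring
              rw [e, Real.rpow_one]
              ring
      · have h3 := h2 h
        calc ‖((σ : ℂ) + t * Complex.I)‖ * ‖KK m (σ + t * Complex.I)‖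
            ≤ 2 * |t| * (C / |(m : ℝ)|) :=
              mul_le_mul hs h3 (norm_nonneg _) (by linarith)
          _ ≤ 2 * C * 1 := by
              rw [mul_div_assoc']
              rw [div_le_iff₀ hm0]
              nlinarith
          _ ≤ _ := mul_le_mul_of_nonneg_left hAB (by linarith)
    calc ‖1 - ((σ : ℂ) + t * Complex.I) * KK m (σ + t * Complex.I)‖
        ≤ ‖(1 : ℂ)‖ + ‖((σ : ℂ) + t * Complex.I) * KK m (σ + t * Complex.I)‖ := norm_sub_le _ _
      _ ≤ 1 * (|t| ^ (1 / 2 - σ) * |(m : ℝ)| ^ σ) + 2 * C * (|t| ^ (1 / 2 - σ) * |(m : ℝ)| ^ σ) := by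
          rw [norm_one, norm_mul, one_mul]
          exact add_le_add hAB hk
      _ = _ := by ring
  rw [norm_div, hd]
  have e : |(m : ℝ)| ^ (σ - 1) = |(m : ℝ)| ^ σ / |(m : ℝ)| := by
    rw [Real.rpow_sub hm0, Real.rpow_one]
  rw [e]
  rw [div_le_iff₀ (by positivity)]
  have hpi : 1 ≤ 2 * Real.pi := by linarith [Real.pi_gt_three]
  calc ‖1 - ((σ : ℂ) + t * Complex.I) * KK m (σ + t * Complex.I)‖
      ≤ (1 + 2 * C) * (|t| ^ (1 / 2 - σ) * |(m : ℝ)| ^ σ) := key
    _ = (1 + 2 * C) * (|t| ^ (1 / 2 - σ) * |(m : ℝ)| ^ σ) * 1 := by ring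
    _ ≤ (1 + 2 * C) * (|t| ^ (1 / 2 - σ) * |(m : ℝ)| ^ σ) * (2 * Real.pi) :=
        mul_le_mul_of_nonneg_left hpi (by positivity)
    _ = _ := by
        field_simp

/-- **(SM)** -/
theorem t_SM (hKB : S_KB) : S_SM := by
  intro σ hσ hσ2
  obtain ⟨C, hC, hK⟩ := hKB σ hσ hσ2
  set Z : ℝ := ∑' m : ℤ, |(m : ℝ)| ^ (-(2 - 2 * σ)) with hZ
  have hsum : Summable (fun m : ℤ => |(m : ℝ)| ^ (-(2 - 2 * σ))) :=
    Real.summable_abs_int_rpow (by linarith)
  have hZ0 : 0 ≤ Z := tsum_nonneg (fun m => Real.rpow_nonneg (abs_nonneg _) _)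
  refine ⟨((σ + 1) / σ) ^ 2 + (1 + 2 * C) ^ 2 * Z, by positivity, ?_⟩
  intro t
  have hre : ((σ : ℂ) + t * Complex.I).re = σ := by simp
  have hs : 0 < ((σ : ℂ) + t * Complex.I).re := by rw [hre]; exact hσ
  rw [lint_eq _ hs]
  refine ENNReal.ofReal_le_ofReal ?_
  have hX : 1 ≤ (1 + |t|) ^ (1 - 2 * σ) :=
    Real.one_le_rpow (by linarith [abs_nonneg t]) (by linarith)
  rcases le_total |t| 1 with ht | ht
  · have hb : ∀ a ∈ Set.uIoc (0 : ℝ) 1, ‖‖DD a ((σ : ℂ) + t * Complex.I)‖ ^ 2‖ ≤ ((σ + 1) / σ) ^ 2 := by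
      intro a ha
      rw [uIoc_of_le zero_le_one] at ha
      have h1 := DD_le (a := a) ha.1.le ha.2 hs
      rw [hre] at h1
      have h2 : ‖((σ : ℂ) + t * Complex.I)‖ ≤ σ + 1 := by
        refine (norm_add_le _ _).trans ?_
        rw [norm_mul, Complex.norm_real, Complex.norm_real, Complex.norm_I, mul_one, Real.norm_eq_abs,
          Real.norm_eq_abs, abs_of_pos hσ]
        linarith
      have h3 : ‖DD a ((σ : ℂ) + t * Complex.I)‖ ≤ (σ + 1) / σ :=
        h1.trans (div_le_div_of_nonneg_right h2 hσ.le)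
      rw [Real.norm_eq_abs, abs_of_nonneg (by positivity)]
      exact pow_le_pow_left₀ (norm_nonneg _) h3 2
    have h := intervalIntegral.norm_integral_le_of_norm_le_const hb
    rw [sub_zero, abs_one, mul_one, Real.norm_eq_abs] at h
    have h4 := (le_abs_self _).trans h
    have h5 : 0 ≤ (1 + 2 * C) ^ 2 * Z := by positivity
    have h6 : 0 ≤ ((σ + 1) / σ) ^ 2 := by positivity
    nlinarith
  · have hP := parseval _ hs
    have hG : HasSum (fun m : ℤ => (1 + 2 * C) ^ 2 * |t| ^ (1 - 2 * σ) * |(m : ℝ)| ^ (-(2 - 2 * σ)))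
        ((1 + 2 * C) ^ 2 * |t| ^ (1 - 2 * σ) * Z) := hsum.hasSum.mul_left _
    have ht0 : 0 < |t| := by linarith
    have hle : ∫ a in (0 : ℝ)..1, ‖DD a ((σ : ℂ) + t * Complex.I)‖ ^ 2 ≤
        (1 + 2 * C) ^ 2 * |t| ^ (1 - 2 * σ) * Z := by
      refine hasSum_le ?_ hP hG
      intro m
      by_cases hm : m = 0
      · subst hm
        have e : ∀ a : ℝ, Complex.exp (-((2 * Real.pi * ((0 : ℤ) : ℝ) * a : ℝ) : ℂ) * Complex.I) *
            DD a ((σ : ℂ) + t * Complex.I) = DD a ((σ : ℂ) + t * Complex.I) := by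
          intro a; simp
        simp only [e]
        rw [coef_zero _ hs]
        rw [norm_zero, zero_pow two_ne_zero]
        positivity
      · rw [coef_ne _ hs m hm]
        have hb := coef_bd hσ hσ2 hC ht m hm (hK m t hm ht).1 (hK m t hm ht).2
        have hm1 : (1 : ℝ) ≤ |(m : ℝ)| := by
          have : (1 : ℤ) ≤ |m| := Int.one_le_abs hm
          exact_mod_cast this
        have hm0 : 0 < |(m : ℝ)| := by linarith
        refine (pow_le_pow_left₀ (norm_nonneg _) hb 2).trans (le_of_eq ?_)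
        rw [mul_pow, mul_pow, ← Real.rpow_natCast (|t| ^ (1 / 2 - σ)) 2, ← Real.rpow_mul ht0.le,
          ← Real.rpow_natCast (|(m : ℝ)| ^ (σ - 1)) 2, ← Real.rpow_mul hm0.le]
        have e1 : (1 / 2 - σ) * ((2 : ℕ) : ℝ) = 1 - 2 * σ := by push_cast; ring
        have e2 : (σ - 1) * ((2 : ℕ) : ℝ) = -(2 - 2 * σ) := by push_cast; ring
        rw [e1, e2]
        ring
    have h7 : |t| ^ (1 - 2 * σ) ≤ (1 + |t|) ^ (1 - 2 * σ) :=
      Real.rpow_le_rpow (abs_nonneg _) (by linarith) (by linarith)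
    calc ∫ a in (0 : ℝ)..1, ‖DD a ((σ : ℂ) + t * Complex.I)‖ ^ 2
        ≤ (1 + 2 * C) ^ 2 * |t| ^ (1 - 2 * σ) * Z := hle
      _ = (1 + 2 * C) ^ 2 * Z * |t| ^ (1 - 2 * σ) := by ring
      _ ≤ (1 + 2 * C) ^ 2 * Z * (1 + |t|) ^ (1 - 2 * σ) :=
          mul_le_mul_of_nonneg_left h7 (by positivity)
      _ ≤ (((σ + 1) / σ) ^ 2 + (1 + 2 * C) ^ 2 * Z) * (1 + |t|) ^ (1 - 2 * σ) := by
          refine mul_le_mul_of_nonneg_right ?_ (by positivity)
          have : 0 ≤ ((σ + 1) / σ) ^ 2 := by positivity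
          linarith

end

end Pool.Agent.J4H13.GS
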